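import Mathlib
import Pool.Agent.H9.Orth

namespace Pool.Agent.Results.MP_ae49d3_an.NoMethod

open Filter Topology Finset

/-- The partial sum of the first `N + 1` terms of the expansion of `f` in the system `φ`. -/
noncomputable def S (φ : ℕ → ℝ → ℝ) (f : ℝ → ℝ) (N : ℕ) (t : ℝ) : ℝ :=
  ∑ n ∈ range (N + 1),
    (∫ x in (0 : ℝ)..1, f x * φ n x) / (∫ x in (0 : ℝ)..1, φ n x ^ 2) * φ n t

/-- The expansion of `f` is uniformly summable to `f` on `[0,1]` by the matrix `c`. -/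
def UnifSummable (φ : ℕ → ℝ → ℝ) (c : ℕ → ℕ → ℝ) (f : ℝ → ℝ) : Prop :=
  ∃ σ : ℕ → ℝ → ℝ,
    (∀ m, TendstoUniformlyOn (fun K t => ∑ N ∈ range K, c m N * S φ f N t) (σ m) atTop
      (Set.Icc 0 1)) ∧ TendstoUniformlyOn σ f atTop (Set.Icc 0 1)

theorem result : ∃ φ : ℕ → ℝ → ℝ,
    (∀ n, ContinuousOn (φ n) (Set.Icc (0 : ℝ) 1)) ∧
    (∀ n, ∃ t ∈ Set.Icc (0 : ℝ) 1, φ n t ≠ 0) ∧
    (∀ m n : ℕ, m ≠ n → ∫ t in (0 : ℝ)..1, φ m t * φ n t = 0) ∧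
    (∀ g : ℝ → ℝ, ContinuousOn g (Set.Icc (0 : ℝ) 1) → ∀ ε : ℝ, ε > 0 →
      ∃ s : Finset ℕ, ∃ a : ℕ → ℝ,
        ∀ t ∈ Set.Icc (0 : ℝ) 1, |g t - ∑ i ∈ s, a i * φ i t| < ε) ∧
    ∀ c : ℕ → ℕ → ℝ, ¬ UnifSummable φ c fun _ => 1 := by
  obtain ⟨φ, h1, h2, h3, h4, h5⟩ := Pool.Agent.H9.Orth.main
  refine ⟨φ, h1, h2, h3, h4, ?_⟩
  rintro c ⟨σ, h6, h7⟩
  have h0 : (0 : ℝ) ∈ Set.Icc (0 : ℝ) 1 := by simp
  have hS : ∀ N, S φ (fun _ => 1) N 0 = 0 := fun N => sum_eq_zero fun n _ => by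
    rcases h5 n with h | h
    · simp only [one_mul]
      rw [h, zero_div, zero_mul]
    · rw [h, mul_zero]
  have hσ : ∀ m, σ m 0 = 0 := fun m =>
    tendsto_nhds_unique ((h6 m).tendsto_at h0) (by simp [hS])
  have := h7.tendsto_at h0
  simp [hσ] at this

end Pool.Agent.Results.MP_ae49d3_an.NoMethod
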